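import Pool.Agent.Run7.h984.DG.Final

set_option autoImplicit false

/-! # Digital functions in several coprime bases inside prime gaps of record length

Let `b_1, ..., b_k ≥ 2` be pairwise coprime and let `S_i : ℕ → G_i` be strongly `b_i`-additive functions
with values in finite abelian groups (`S_i (b_i n + d) = S_i n + S_i d` for `d < b_i`, so `S_i n` is the sum
of the `S_i d` over the digits `d` of `n` in base `b_i`), such that no nontrivial character of `S_i n`
depends only on `n mod (b_i - 1)`. Then the `S_i` take all combinations of values, simultaneously, at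
integers `n` in every interval of length `M ^ ε` without primes at distance
`κ log M (log₂ M)² log₄ M / (log₃ M)²`; and given numbers `α_1 n + β_1, ..., α_r n + β_r` can be required to
have the same property. The theorem `digit_sums` is the example of the sums of digits modulo `m_i`.

Proof. The joint sums of characters save a power, uniformly in the frequency (`Run7/h984/DG`): averaging
over the shifts of `n` by `r < R` and the Chinese remainder theorem reduce this to the norm of one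
convolution operator on `ℤ / b^L`, which is the largest Fourier coefficient of one of the `χ (S_i n)`, and
these are bounded by Gelfond's product formula (starting file `TH915/PW/DigitsMain.lean`). The covering
criterion for families of integers together with real numbers is that of the starting file
`Y961/JR/ScaledJ.lean`.

The case `k = 1`, `r = 0` is `MP_69be96_nt.DigitalFunctionsInRecordGaps`; for `k = 0` see
`Y961/JR/LinearFix.lean`. -/

namespace Pool.Agent.Results.MP_ff81b6_nt.JointDigitalFunctions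

open Filter

/-- The record scale `f(x) = log x (log₂ x)² log₄ x / (log₃ x)²` (iterated natural logarithms). -/
noncomputable def f (x : ℝ) : ℝ :=
  Real.log x * (Real.log (Real.log x)) ^ 2 * Real.log (Real.log (Real.log (Real.log x))) /
    (Real.log (Real.log (Real.log x))) ^ 2

/-- No prime is at distance at most `T` from `y`. -/
def FarFromPrimes (T y : ℝ) : Prop := ∀ q : ℕ, q.Prime → T < |(q : ℝ) - y|

/-- **Theorem.** Let `b_1, ..., b_k ≥ 2` be pairwise coprime, `k ≥ 1`. Let `S_i : ℕ → G_i` be strongly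
`b_i`-additive with values in finite abelian groups, and suppose that every character `χ` of `G_i` with
`χ (S_i 1) ^ (b_i - 1) = 1` and `χ (S_i d) = χ (S_i 1) ^ d` for `d < b_i` is trivial. For all `r` and
`τ ≥ 0` there is `κ > 0`: if `α_1, ..., α_r > 0` satisfy `|h_1 α_1 + ... + h_r α_r - m| ≥ c H ^ (-τ)` for
all integers `h_j`, not all zero and at most `H` in absolute value, and all integers `m`, and if
`β_1, ..., β_r` are real, then for all `Z ≥ Z₀` and all `M ≥ Z` every value `(g_1, ..., g_k)` is taken by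
`(S_1, ..., S_k)` at an integer `n` in `(M, M + Z]` such that no prime is at distance at most `κ f(Z)`
from any of `n`, `α_1 n + β_1, ..., α_r n + β_r`. -/
theorem result (k : ℕ) (hk : 1 ≤ k) (b : Fin k → ℕ) (hb : ∀ i, 2 ≤ b i)
    (hcop : ∀ i j, i ≠ j → Nat.Coprime (b i) (b j))
    (G : Fin k → Type) [∀ i, AddCommGroup (G i)] [∀ i, Finite (G i)] (S : ∀ i, ℕ → G i)
    (hS : ∀ i, ∀ n d : ℕ, d < b i → S i (b i * n + d) = S i n + S i d)
    (hN : ∀ i, ∀ χ : AddChar (G i) ℂ, χ (S i 1) ^ (b i - 1) = 1 →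
      (∀ d < b i, χ (S i d) = χ (S i 1) ^ d) → ∀ x, χ x = 1)
    (r : ℕ) (τ : ℝ) (hτ : 0 ≤ τ) :
    ∃ κ : ℝ, 0 < κ ∧ ∀ α β : Fin r → ℝ, (∀ j, 0 < α j) →
      (∃ c : ℝ, 0 < c ∧ ∀ (H : ℕ) (h : Fin r → ℤ), h ≠ 0 → (∀ j, |h j| ≤ H) → ∀ m : ℤ,
        c * (H : ℝ) ^ (-τ) ≤ |∑ j, (h j : ℝ) * α j - m|) →
      ∃ Z₀ : ℝ, ∀ Z : ℝ, Z₀ ≤ Z → ∀ M : ℝ, Z ≤ M → ∀ g : ∀ i, G i,
      ∃ n : ℕ, M < n ∧ (n : ℝ) ≤ M + Z ∧ (∀ i, S i n = g i) ∧ FarFromPrimes (κ * f Z) n ∧
        ∀ j, FarFromPrimes (κ * f Z) (α j * n + β j) := by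
  have : Nonempty (Fin k) := ⟨⟨0, hk⟩⟩
  have hfin : ∀ i, Fintype (G i) := fun i => Fintype.ofFinite (G i)
  have hN' : ∀ i, ∀ χ : AddChar (G i) ℂ, χ ≠ 0 →
      ¬ (χ (S i 1) ^ (b i - 1) = 1 ∧ ∀ d < b i, χ (S i d) = χ (S i 1) ^ d) := by
    rintro i χ hχ ⟨h1, h2⟩
    apply hχ
    ext x
    simpa using hN i χ h1 h2 x
  exact Pool.Agent.Run7.h984.DG.dioph b hb hcop G S hS hN' r τ hτ

lemma digits_sum_step (b : ℕ) (hb : 2 ≤ b) (n d : ℕ) (hd : d < b) :
    (Nat.digits b (b * n + d)).sum = (Nat.digits b n).sum + (Nat.digits b d).sum := by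
  have h1 : (Nat.digits b d).sum = d := by
    rcases Nat.eq_zero_or_pos d with rfl | h
    · simp
    · rw [Nat.digits_of_lt b d h.ne' hd]
      simp
  rw [h1]
  rcases Nat.eq_zero_or_pos (b * n + d) with h | h
  · have h2 : b * n = 0 := by omega
    have h3 : d = 0 := by omega
    have h4 : n = 0 := by
      rcases Nat.mul_eq_zero.1 h2 with h5 | h5
      · omega
      · exact h5
    subst h3 h4
    simp
  · rw [Nat.digits_def' (by omega) h]
    have h2 : (b * n + d) % b = d := by
      rw [Nat.mul_add_mod, Nat.mod_eq_of_lt hd]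
    have h3 : (b * n + d) / b = n := by
      rw [Nat.mul_add_div (by omega), Nat.div_eq_of_lt hd, add_zero]
    rw [h2, h3, List.sum_cons, add_comm]

/-- The example of the sums of digits: for `m_i ≥ 1` prime to `b_i - 1` and `ε > 0` there is `κ > 0` such
that for all large `M` and all `a_i` there is `n` in `(M, M + M ^ ε]`, without primes at distance at most
`κ f(M)`, whose sum of digits in base `b_i` is `a_i` modulo `m_i` for all `i`. -/
theorem digit_sums (k : ℕ) (hk : 1 ≤ k) (b : Fin k → ℕ) (hb : ∀ i, 2 ≤ b i)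
    (hcop : ∀ i j, i ≠ j → Nat.Coprime (b i) (b j))
    (m : Fin k → ℕ) (hm : ∀ i, 1 ≤ m i) (hmb : ∀ i, Nat.Coprime (m i) (b i - 1)) (ε : ℝ)
    (hε : 0 < ε) :
    ∃ κ : ℝ, 0 < κ ∧ ∃ M₀ : ℝ, ∀ M : ℝ, M₀ ≤ M → ∀ a : Fin k → ℕ,
      ∃ n : ℕ, M < n ∧ (n : ℝ) ≤ M + M ^ ε ∧
        (∀ i, (Nat.digits (b i) n).sum ≡ a i [MOD m i]) ∧ FarFromPrimes (κ * f M) n := by
  have : ∀ i, NeZero (m i) := fun i => ⟨by have := hm i; omega⟩
  obtain ⟨κ, hκ, h2⟩ := result k hk b hb hcop (fun i => ZMod (m i))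
    (fun i n => ((Nat.digits (b i) n).sum : ZMod (m i)))
    (by
      intro i n d hd
      rw [digits_sum_step (b i) (hb i) n d hd]
      push_cast
      rfl) (by
      intro i χ h1 _ x
      have hb1 : (Nat.digits (b i) 1).sum = 1 := by
        rw [Nat.digits_of_lt (b i) 1 one_ne_zero (by have := hb i; omega)]
        simp
      simp only [hb1, Nat.cast_one] at h1
      have h2 : χ 1 ^ (m i) = 1 := by
        rw [← AddChar.map_nsmul_eq_pow]
        simp
      have h3 : χ 1 = 1 := by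
        have h4 : orderOf (χ (1 : ZMod (m i))) ∣ m i := orderOf_dvd_of_pow_eq_one h2
        have h5 : orderOf (χ (1 : ZMod (m i))) ∣ b i - 1 := orderOf_dvd_of_pow_eq_one h1
        have h6 := Nat.dvd_gcd h4 h5
        rw [Nat.Coprime.gcd_eq_one (hmb i), Nat.dvd_one] at h6
        exact orderOf_eq_one_iff.1 h6
      have h4 : x = x.val • (1 : ZMod (m i)) := by
        rw [nsmul_eq_mul, mul_one, ZMod.natCast_zmod_val]
      rw [h4, AddChar.map_nsmul_eq_pow, h3, one_pow]) 0 0 le_rfl
  obtain ⟨Z₀, h3⟩ := h2 (fun j => j.elim0) (fun j => j.elim0) (fun j => j.elim0)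
    ⟨1, one_pos, fun H h hh => absurd (funext fun j => j.elim0) hh⟩
  set ε' : ℝ := min ε 1 with hε'
  have hε'0 : 0 < ε' := lt_min hε one_pos
  have hε'1 : ε' ≤ 1 := min_le_right _ _
  obtain ⟨M₀, hM₀⟩ := eventually_atTop.1 ((Pool.Agent.W147.PS.ff_compare ε' hε'0 hε'1).and
    (((tendsto_rpow_atTop hε'0).eventually_ge_atTop Z₀).and (eventually_ge_atTop (1 : ℝ))))
  refine ⟨κ * (ε' / 32), by positivity, M₀, ?_⟩
  intro M hM a
  obtain ⟨c1, c2, c3⟩ := hM₀ M hM
  have hM0 : 0 < M := by linarith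
  have hMM : M ^ ε' ≤ M := by
    calc M ^ ε' ≤ M ^ (1 : ℝ) := Real.rpow_le_rpow_of_exponent_le c3 hε'1
      _ = M := Real.rpow_one M
  obtain ⟨n, k1, k2, k3, k4, -⟩ := h3 (M ^ ε') c2 M hMM (fun i => (a i : ZMod (m i)))
  refine ⟨n, k1, k2.trans ?_, fun i => ?_, ?_⟩
  · have : M ^ ε' ≤ M ^ ε := Real.rpow_le_rpow_of_exponent_le c3 (min_le_left _ _)
    linarith
  · exact (ZMod.natCast_eq_natCast_iff _ _ _).1 (k3 i)
  · intro q hq
    refine lt_of_le_of_lt ?_ (k4 q hq)
    have h5 := (c1.2 (M ^ ε') le_rfl (by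
      calc M ^ ε' ≤ M ^ (2 : ℝ) := Real.rpow_le_rpow_of_exponent_le c3 (by linarith)
        _ = M ^ 2 := by norm_num)).1
    calc κ * (ε' / 32) * f M = κ * (ε' / 32 * Pool.Agent.W147.PS.ff M) := by
          rw [mul_assoc]; rfl
      _ ≤ κ * Pool.Agent.W147.PS.ff (M ^ ε') := mul_le_mul_of_nonneg_left h5 hκ.le
      _ = κ * f (M ^ ε') := rfl

end Pool.Agent.Results.MP_ff81b6_nt.JointDigitalFunctions
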