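import Pool.Agent.Run7.h251.KW.Law
import Pool.Agent.Run7.h251.KW.Poly

/-!
# Cramér's law, with the constant one, for the values of almost all polynomials of logarithmic degree

Cramér's conjecture says that `m = (1 + o(1)) log^2 N` is the largest `m` such that some `n + 1, ..., n + m` with `n ≤ N` are
all composite. Here the shifts `1, ..., m` are replaced by `s 0, ..., s (m - 1)`, where
`s j = c j + M (b j + 1 + (f(j) mod p))` with a polynomial `f` modulo the prime `p` of degree less than `d`, `d ≥ 8 log N`:
the residues `c j` modulo `M` and the windows are prescribed (for instance `c j = j`: the perturbed interval has the residues of an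
interval modulo the small primes), and `f` is random. The law holds for almost all `f`. These are only `p^d = exp(O(log^2 N))`
sequences, while the independent shifts of `MP_b0c12c_nt.RandomShifts` and `MP_f9960f_nt.SmallPrimesDecide` (helper931), whose
estimates for the primes and prime pairs are used, need `exp(c log^3 N)` vectors.

Method: any `d` values of `f` are independent. By Bonferroni's inequalities, every event that `n`, or both of `n` and `n'`, survive
has the same probability as for independent shifts, up to `exp(e μ - d)`, where `μ ≤ 2 log N` is the expected number of hits; for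
`d ≥ 8 log N` this is less than `N^(-2)`, so that the first and second moments are those of the independent shifts. Where the number of
hits may be larger than that, subsets of the sets of hits with the right number of elements are used.
-/

set_option autoImplicit false

namespace Pool.Agent.Results.MP_ff81b6_nt.LimitedIndependence

open Finset

/-- The value at `j` of the polynomial `x 0 + x 1 X + ... + x (d - 1) X^(d - 1)` modulo `p`, as an integer `0 ≤ v < p`. -/
def value (p d : ℕ) (x : Fin d → ZMod p) (j : ℕ) : ℕ := (∑ r : Fin d, x r * (j : ZMod p) ^ (r : ℕ)).val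

/-- The shift `s j = c j + M (b j + 1 + (f(j) mod p))`, where `f` is the polynomial with the coefficients `x`. -/
def shift (M p d : ℕ) (c b : ℕ → ℕ) (x : Fin d → ZMod p) (j : ℕ) : ℕ := c j + M * (b j + 1 + value p d x j)

/-- The integers `1 ≤ n ≤ N` for which none of `n + s 0, ..., n + s (m - 1)` is a prime. -/
def composite (N m : ℕ) (s : ℕ → ℕ) : Finset ℕ := (Icc 1 N).filter fun n => ∀ j < m, ¬ (n + s j).Prime

open Classical in
/-- The largest `k ≤ m` for which there is an integer `1 ≤ n ≤ N` such that none of `n + s 0, ..., n + s (k - 1)` is a prime. -/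
noncomputable def longest (N m : ℕ) (s : ℕ → ℕ) : ℕ :=
  Nat.findGreatest (fun k => ∃ n, 1 ≤ n ∧ n ≤ N ∧ ∀ j < k, ¬ (n + s j).Prime) m

/-- What the prime divisors of `M` leave of `c 0, ..., c (k - 1)`: the least number, over all `n`, of `j < k` with `n + c j`
coprime to `M`. -/
noncomputable def rest (M : ℕ) (c : ℕ → ℕ) (k : ℕ) : ℕ :=
  sInf (Set.range fun n : ℕ => ((range k).filter fun j => (n + c j).Coprime M).card)

/-- The effective number `(M / φ(M)) * rest` of the residues `c 0, ..., c (k - 1)`. -/
noncomputable def size (M : ℕ) (c : ℕ → ℕ) (k : ℕ) : ℝ := (M : ℝ) / Nat.totient M * rest M c k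

open Classical in
/-- For every `0 < ε ≤ 1` there is `w₀` such that the following holds for all `T`, `a`, for all `w ≥ w₀` and for every modulus `M`
whose prime divisors are exactly the primes up to `w`. For all large `N`, all primes `p` with `N / log^a N ≤ M p ≤ N`, all
`d ≥ 8 log N`, all `m ≤ p`, all sequences of residues `c j` and windows `b j` with `c j + M b j ≤ T N`, the polynomials `f`
modulo `p` of degree less than `d` (given by their coefficients `x : Fin d → ZMod p`) and the shifts
`s j = c j + M (b j + 1 + (f(j) mod p))` satisfy, with `Λ = size M c`: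

**(1)** If `Λ m ≥ (1 + ε) log^2 N`, then for all but a proportion of at most `N^(-ε/2)` of the `p^d` polynomials there is no `n ≤ N`
such that `n + s 0, ..., n + s (m - 1)` are all composite (not prime).

**(2)** If `Λ m ≤ (1 - ε) log^2 N`, then for all but a proportion of at most `ε` of the polynomials the number of these `n ≤ N`
is between `N^(1 - Λ m/log^2 N - ε)` and `N^(1 - Λ m/log^2 N + ε)`.

**(3)** If `Λ m ≥ (1 + ε) log^2 N`, then for all but a proportion of at most `ε` of the polynomials the largest `k ≤ m` such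
that `n + s 0, ..., n + s (k - 1)` are all composite for some `n ≤ N` satisfies `|Λ k - log^2 N| ≤ ε log^2 N`.

**(4)** If `c j = j` for all `j < m` and `m ≥ (1 + ε) log^2 N`, then for all but a proportion of at most `ε` of the polynomials
this `k` is between `(1 - ε) log^2 N` and `(1 + ε) log^2 N`. -/
theorem result (ε : ℝ) (hε : 0 < ε) (hε1 : ε ≤ 1) : ∃ w₀ : ℕ, ∀ T a w : ℕ, w₀ ≤ w → ∀ M : ℕ, 1 ≤ M →
    (∀ r : ℕ, r.Prime → (r ∣ M ↔ r ≤ w)) → ∃ N₀ : ℕ, ∀ N : ℕ, N₀ ≤ N → ∀ (p : ℕ) [Fact p.Prime],
    (N : ℝ) ≤ (M * p : ℕ) * Real.log N ^ a → M * p ≤ N → ∀ d : ℕ, 8 * Real.log N ≤ d → ∀ m ≤ p,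
    ∀ (c b : ℕ → ℕ), (∀ j, c j + M * b j ≤ T * N) →
      ((1 + ε) * Real.log N ^ 2 ≤ size M c m →
        ((univ.filter fun x : Fin d → ZMod p => (composite N m (shift M p d c b x)).Nonempty).card : ℝ) ≤
          (N : ℝ) ^ (-(ε / 2)) * (p : ℝ) ^ d) ∧
      (size M c m ≤ (1 - ε) * Real.log N ^ 2 →
        ((univ.filter fun x : Fin d → ZMod p => ¬ ((N : ℝ) ^ (1 - size M c m / Real.log N ^ 2 - ε) ≤
            (composite N m (shift M p d c b x)).card ∧
          ((composite N m (shift M p d c b x)).card : ℝ) ≤ (N : ℝ) ^ (1 - size M c m / Real.log N ^ 2 + ε))).card : ℝ) ≤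
            ε * (p : ℝ) ^ d) ∧
      ((1 + ε) * Real.log N ^ 2 ≤ size M c m →
        ((univ.filter fun x : Fin d → ZMod p => ε * Real.log N ^ 2 <
          |size M c (longest N m (shift M p d c b x)) - Real.log N ^ 2|).card : ℝ) ≤ ε * (p : ℝ) ^ d) ∧
      ((∀ j < m, c j = j) → (1 + ε) * Real.log N ^ 2 ≤ m →
        ((univ.filter fun x : Fin d → ZMod p => ε * Real.log N ^ 2 <
          |(longest N m (shift M p d c b x) : ℝ) - Real.log N ^ 2|).card : ℝ) ≤ ε * (p : ℝ) ^ d) := by
  obtain ⟨w₁, h₁⟩ := Run7.h251.KW.two_F ε hε hε1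
  obtain ⟨w₂, h₂⟩ := Run7.h251.KW.law_F ε hε hε1
  obtain ⟨w₃, h₃⟩ := Run7.h251.KW.law_iF ε hε hε1
  refine ⟨max w₁ (max w₂ w₃), fun T a w hw M hM1 hM => ?_⟩
  have g0 := Run7.h251.KW.one_F T a w M hM1 hM ε hε hε1
  have g1 := h₁ T a w (by omega) M hM1 hM
  have g2 := h₂ T a w (by omega) M hM1 hM
  have g3 := h₃ T a w (by omega) M hM1 hM
  obtain ⟨N₀, hN₀⟩ := Filter.eventually_atTop.1 (g0.and (g1.and (g2.and g3)))
  refine ⟨N₀, fun N hN p _ hq hqN d hd m hm c b hb => ?_⟩
  obtain ⟨k0, k1, k2, k3⟩ := hN₀ N hN
  have hwise := Run7.h251.KW.poly_wise M p d m hM1 c b hm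
  have hcard : (Fintype.card (Fin d → ZMod p) : ℝ) = (p : ℝ) ^ d := by
    rw [Fintype.card_fun, Fintype.card_fin, ZMod.card]
    push_cast
    rfl
  have hsize : ∀ k, size M c k = Pool.Agent.Run7.h931.RS.Pw w * Pool.Agent.Run7.h931.RL.sur M c k := by
    intro k
    have h1 := Pool.Agent.Run7.h931.RL.tot_P w M hM1 hM
    have h2 : (0 : ℝ) < Nat.totient M := by exact_mod_cast Nat.totient_pos.2 hM1
    have h3 : (M : ℝ) / Nat.totient M = Pool.Agent.Run7.h931.RS.Pw w := by
      rw [← h1]
      field_simp
    unfold size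
    rw [h3]
    rfl
  have l0 := k0 (M * p) hq hqN d m c (fun j => c j + M * b j) hd hb _ _ hwise
  have l1 := k1 (M * p) hq hqN d m c (fun j => c j + M * b j) hd hb _ _ hwise
  have l2 := k2 (M * p) hq hqN d m c (fun j => c j + M * b j) hd hb _ _ hwise
  have l3 := k3 (M * p) hq hqN d m c (fun j => c j + M * b j) hd hb _ _ hwise
  rw [hcard] at l0 l1 l2 l3
  have e1 : ∀ x : Fin d → ZMod p, composite N m (shift M p d c b x) =
      Run7.h251.KW.surv N m (Run7.h251.KW.pseq M p d c b x) := by
    intro x
    ext n
    unfold composite Run7.h251.KW.surv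
    rw [mem_filter, mem_filter]
    exact Iff.rfl
  have e2 : ∀ x : Fin d → ZMod p, longest N m (shift M p d c b x) =
      Run7.h251.KW.runS N m (Run7.h251.KW.pseq M p d c b x) := by
    intro x
    unfold longest Run7.h251.KW.runS Run7.h251.KW.FreeS
    congr
  simp only [e1, e2, hsize]
  refine ⟨fun h => ?_, fun h => ?_, fun h => ?_, fun h1 h2 => ?_⟩
  · exact l0 h
  · exact l1 h
  · exact l2 h
  · exact l3 h1 h2

end Pool.Agent.Results.MP_ff81b6_nt.LimitedIndependence
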