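import Pool.Agent.Run7.h377.SB.Apps

set_option autoImplicit false

/-!
# Every residue class modulo a prime is a product of record centres from given short intervals

Write `f(x) = log x (log₂ x)² log₄ x / (log₃ x)²` for the record size of the prime-free intervals.  An
integer `n` is a centre modulo `p` if every integer within `κ f(p)` of `n` has a prime factor `≤ p ^ ε`;
so a centre in `(p ^ ε + κ f(p), p)` is in the middle of a record prime gap.

Let `k ≥ 2`.  For all large primes `p`, every residue class `a ≠ 0` modulo `p` and all intervals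
`I_1, …, I_k` of lengths at most `p` with `|I_1| |I_2| ≥ p ^ (3/2 + ε)` and `|I_j| ≥ p ^ ε`, at least
`∏ |I_j| / p ^ (1 + ε)` vectors of centres `n_j ∈ I_j` satisfy `n_1 ⋯ n_k ≡ a (mod p)`; about
`∏ |I_j| / p` vectors of integers do.  The case `k = 2`, `a = 1`: an integer and its inverse modulo `p`
are both in the middle of record prime gaps, and they can be prescribed up to `p ^ (3/4 + ε)`.  The
condition on `|I_1| |I_2|` is the one of the classical theorem on the points of the modular hyperbola
`x y ≡ a` in boxes, without any condition on `x` and `y`.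

Proof: the covering sieve for families of vectors (`Pool.Agent.Y961.JR.critJ`, helper961, after
helper256), completion (helper825), Weil's bound for Kloosterman sums (helper498); new is the treatment
of boxes whose volume is a small power of `p`.
-/

namespace Pool.Agent.Results.MP_ff81b6_nt.ModularHyperbola

open Finset

/-- The record scale `f(x) = log x (log₂ x)² log₄ x / (log₃ x)²` (iterated natural logarithms). -/
noncomputable def f (x : ℝ) : ℝ :=
  Real.log x * (Real.log (Real.log x)) ^ 2 * Real.log (Real.log (Real.log (Real.log x))) /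
    (Real.log (Real.log (Real.log x))) ^ 2

/-- Every integer within `κ f(p)` of `n` has a prime factor at most `p ^ ε`. -/
def Centre (κ ε : ℝ) (p : ℕ) (n : ℤ) : Prop :=
  ∀ t : ℤ, |(t : ℝ) - n| ≤ κ * f p → ∃ l : ℕ, l.Prime ∧ (l : ℝ) ≤ (p : ℝ) ^ ε ∧ (l : ℤ) ∣ t

/-- **Every residue class is a product of record centres from given short intervals.** -/
theorem result (k : ℕ) (ε : ℝ) (hε : 0 < ε) (hε1 : ε ≤ 1) :
    ∃ κ : ℝ, 0 < κ ∧ ∃ P₀ : ℝ, ∀ (p : ℕ) [Fact p.Prime], P₀ ≤ p → ∀ a : ZMod p, a ≠ 0 →
      ∀ (M : Fin (k + 2) → ℤ) (L : Fin (k + 2) → ℕ), (∀ j, (p : ℝ) ^ ε ≤ L j ∧ L j ≤ p) →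
      (p : ℝ) ^ (3 / 2 + ε) ≤ L 0 * L 1 →
      ∃ g : Finset (Fin (k + 2) → ℤ), (∏ j, (L j : ℝ)) * (p : ℝ) ^ (-1 - ε) ≤ g.card ∧
        ∀ n ∈ g, (∀ j, M j < n j ∧ n j ≤ M j + L j ∧ Centre κ ε p (n j)) ∧
          ((∏ j, n j : ℤ) : ZMod p) = a :=
  Pool.Agent.Run7.h377.SB.products k ε hε hε1

end Pool.Agent.Results.MP_ff81b6_nt.ModularHyperbola
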