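import Pool.Agent.Run7.h823.BKA

set_option autoImplicit false

/-!
# Record prime gaps at very short geometric progressions and linear recurrences modulo primes

Write `f(x) = log x (log₂ x)² log₄ x / (log₃ x)²` for the record size of the prime-free intervals.  An
integer `n` is a centre modulo `p` if every integer within `κ f(p)` of `n` has a prime factor `≤ p ^ ε`;
so a centre in `(p ^ ε + κ f(p), p)` is in the middle of a record prime gap.

(1) Let `g_1, …, g_k` be residues modulo the prime `p` such that all the `g_i` and all the quotients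
`g_i / g_j`, `i ≠ j`, have order `≥ p ^ ε`, let `u_j(n) = ∑ c_ji g_i ^ n`, `j ≤ r`, be `r` linear
recurrences with linearly independent rows of coefficients, and let `N ≥ p ^ ε`.  For at least `N p ^ (-ε)`
of the `n < N` ALL the residues `u_1(n), …, u_r(n)` are represented by centres in EVERY box with sides
`≥ p ^ (1 - δ)`.  In particular: `r` geometric progressions `x_j g_j ^ n`, or `k` consecutive terms of one
linear recurrence of order `k`.
(2) Let `H` be a subgroup of the multiplicative group and `k_1, …, k_r` integers such that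
`|H| ≥ p ^ ε gcd(k_j, |H|)` and `|H| ≥ p ^ ε gcd(k_i - k_j, |H|)`.  For at least `|H| p ^ (-ε)` elements `h`
of `H` all the residues `x_j h ^ (k_j)` are represented by centres in every such box.
(3) Let `b_1, …, b_r ≥ 2` be distinct integers.  All but `C X ^ ε` of the primes `p ≤ X` have the following
property: for every `N ≥ p ^ ε`, at least `N p ^ (-ε)` of the vectors `(x_j b_j ^ n)_j`, `n < N`, are
represented by centres in every such box; for example all the least residues of `2 ^ n, 3 ^ n, 5 ^ n`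
modulo `p` are simultaneously centres.

The starting results have `r = 1` and subgroups of order `≥ p ^ (3/8 + ε)`, and single powers `g ^ n`,
`n ≤ p`, for all but `C X ^ (3/4 + ε)` primes.  Proof: the exponential sum bound of Bourgain and of
Bourgain, Glibichuk and Konyagin for families of vectors with many multiplicative almost periods (large
spectrum, additive energy, Balog-Szemeredi-Gowers, good multipliers generate all the multiples of the unit
vectors), proved here from scratch up to the starting library for Balog-Szemeredi-Gowers, and the starting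
criterion for families of residues (`N825.FC.crit`).
-/

namespace Pool.Agent.Results.MP_ff81b6_nt.ShortGeometricProgressions

open Finset

/-- The record scale `f(x) = log x (log₂ x)² log₄ x / (log₃ x)²` (iterated natural logarithms). -/
noncomputable def f (x : ℝ) : ℝ :=
  Real.log x * (Real.log (Real.log x)) ^ 2 * Real.log (Real.log (Real.log (Real.log x))) /
    (Real.log (Real.log (Real.log x))) ^ 2

/-- Every integer within `κ f(p)` of `n` has a prime factor at most `p ^ ε`. -/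
def Centre (κ ε : ℝ) (p : ℕ) (n : ℤ) : Prop :=
  ∀ t : ℤ, |(t : ℝ) - n| ≤ κ * f p → ∃ l : ℕ, l.Prime ∧ (l : ℝ) ≤ (p : ℝ) ^ ε ∧ (l : ℤ) ∣ t

/-- For every box `∏ (M_j, M_j + L]` with `p ^ (1 - δ) ≤ L ≤ p` at least `|s| p ^ (-ε)` of the vectors
`v_i`, `i ∈ s`, modulo `p` are represented by vectors of centres in the box. -/
def ManyCentres (κ ε δ : ℝ) (p : ℕ) {ι : Type} {r : ℕ} (s : Finset ι) (v : ι → Fin r → ZMod p) :
    Prop :=
  ∀ (M : Fin r → ℤ) (L : ℕ), (p : ℝ) ^ (1 - δ) ≤ L → L ≤ p →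
    ∃ g ⊆ s, s.card * (p : ℝ) ^ (-ε) ≤ g.card ∧
      ∀ i ∈ g, ∀ j, ∃ n : ℤ, M j < n ∧ n ≤ M j + L ∧ (n : ZMod p) = v i j ∧ Centre κ ε p n

/-- **Record prime gaps at short geometric progressions and linear recurrences modulo primes.** -/
theorem result (r : ℕ) (hr : 1 ≤ r) (ε : ℝ) (hε : 0 < ε) :
    (∀ k : ℕ, ∃ κ : ℝ, 0 < κ ∧ ∃ δ : ℝ, 0 < δ ∧ ∃ P₀ : ℝ,
      ∀ (p : ℕ) [Fact p.Prime], P₀ ≤ p →
      ∀ (c : Fin r → Fin k → ZMod p) (g : Fin k → (ZMod p)ˣ) (N : ℕ),
        LinearIndependent (ZMod p) c → (∀ i, (p : ℝ) ^ ε ≤ orderOf (g i)) →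
        (∀ i j, i ≠ j → (p : ℝ) ^ ε ≤ orderOf (g i / g j)) → (p : ℝ) ^ ε ≤ N →
        ManyCentres κ ε δ p (range N) (fun n j => ∑ i, c j i * (g i : ZMod p) ^ n)) ∧
    (∃ κ : ℝ, 0 < κ ∧ ∃ δ : ℝ, 0 < δ ∧ ∃ P₀ : ℝ,
      ∀ (p : ℕ) [Fact p.Prime], P₀ ≤ p →
      ∀ (H : Subgroup (ZMod p)ˣ) (s : Finset (ZMod p)ˣ), (∀ h, h ∈ s ↔ h ∈ H) →
      ∀ (x : Fin r → (ZMod p)ˣ) (k : Fin r → ℤ),
        (∀ j, (p : ℝ) ^ ε * Int.gcd (k j) s.card ≤ s.card) →
        (∀ i j, i ≠ j → (p : ℝ) ^ ε * Int.gcd (k i - k j) s.card ≤ s.card) →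
        ManyCentres κ ε δ p s (fun h j => (x j : ZMod p) * ((h ^ k j : (ZMod p)ˣ) : ZMod p))) ∧
    (∃ κ : ℝ, 0 < κ ∧ ∃ δ : ℝ, 0 < δ ∧ ∀ b : Fin r → ℕ, (∀ j, 2 ≤ b j) → Function.Injective b →
      ∃ C : ℝ, ∀ X : ℕ, 1 ≤ X → ∀ Q : Finset ℕ,
        (∀ p ∈ Q, p.Prime ∧ p ≤ X ∧ ¬ ∀ N : ℕ, (p : ℝ) ^ ε ≤ N → ∀ x : Fin r → ZMod p,
          (∀ j, x j ≠ 0) →
          ManyCentres κ ε δ p (range N) (fun n j => x j * (b j : ZMod p) ^ n)) →
        (Q.card : ℝ) ≤ C * (X : ℝ) ^ ε) :=
  ⟨fun k => Pool.Agent.Run7.h823.BK.many_recurrences r k hr hε,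
    Pool.Agent.Run7.h823.BK.many_monomials r hr hε,
    Pool.Agent.Run7.h823.BK.many_primes r hr hε⟩

end Pool.Agent.Results.MP_ff81b6_nt.ShortGeometricProgressions
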